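import Pool.Agent.Q50.GM.Main

/-!
# Modularity of abelian varieties of GL₂-type from a positive proportion of the places

Let `A` be an abelian variety of GL₂(E)-type over a totally real field `F`, without complex
multiplication over the algebraic closure. Then `A` is associated to a Hilbert newform over `F` if and
only if there are a chain `F = F₀ ⊆ F₁ ⊆ ... ⊆ F_n = L` of totally real cyclic extensions of prime degree
and a Hilbert newform over `L` with the same Frobenius traces as `A` for a set of places of `L` of
positive upper density.

So the modularity of all abelian varieties of GL₂-type over totally real fields is equivalent to this
approximate modularity of the semistable ones without complex multiplication over the totally real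
fields which contain a given totally real solvable extension `M₀` of `ℚ`.

Proved in Lean: two representations of dimension two whose traces agree on a coset of an open subgroup
are isomorphic there, then over `L` up to a character of finite order; and the descent along the tower
from Langlands' theorem for cyclic extensions of prime degree.
-/

set_option autoImplicit false

universe u

namespace Pool.Agent.Results.MP_326854_nt.PositiveDensityTower

open Pool.Agent.Q50.ES NumberField

/-- **A positive proportion of the places over a tower decides.** (1) An abelian variety of GL₂-type over
a totally real field, without complex multiplication over the algebraic closure, is associated to a
Hilbert newform if and only if over the end of a tower of totally real cyclic extensions of prime degree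
there is a Hilbert newform with the same Frobenius traces for a set of places of positive upper density.
(2) All abelian varieties of GL₂-type over all totally real fields are associated to Hilbert newforms if
and only if the condition of (1) holds for the semistable ones without complex multiplication over the
totally real fields which contain `M₀`. -/
theorem result {K : Type u} [Field K] [TopologicalSpace K] [IsTopologicalRing K] [T1Space K]
    (T : GM.Data K) (hT : T.Facts) (M₀ : Fld) (hM : TotallyReal M₀) (hG : SolvableGalois M₀) :
    (∀ F, TotallyReal F → ∀ (E : Subfield K) (A : T.AV F E), ¬ T.CM A →
      (T.Modular A ↔ T.Approximated A)) ∧
    ((∀ F, TotallyReal F → ∀ (E : Subfield K) (A : T.AV F E), T.Modular A) ↔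
      ∀ F, TotallyReal F → M₀ ≤ F → ∀ (E : Subfield K) (A : T.AV F E),
        T.Semistable A → ¬ T.CM A → T.Approximated A) :=
  ⟨fun _ hF _ A hA => GM.Data.modular_iff hT hF A hA, GM.Data.all_iff hT hM hG⟩

end Pool.Agent.Results.MP_326854_nt.PositiveDensityTower
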